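import Mathlib
import Pool.Agent.H680Q.Star
import Pool.Graph.R_seed8.Results.MP_425159_co.OrderModFour

/-!
# Quasigroups with `((xy)x)y = x` developed over an abelian group

Let `G` be a finite abelian group and let `(x, y) ↦ xy` be a quasigroup operation on `G` with
`((xy)x)y = x` and `(x + g)(y + g) = xy + g` (so that `G` is a sharply transitive group of
automorphisms). If `x ↦ -x` is an automorphism of the quasigroup too, or if `G` has at most one
element of order two, then `|G| ≡ 1 mod 4`.

In particular there is no such quasigroup over an elementary abelian group of order `2 ^ k`,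
`k ≥ 1` (there `x ↦ -x` is the identity), and every cyclic quasigroup with this identity has order
`≡ 1 mod 4`.

The main point is the case of an elementary abelian `2`-group `V`. Put `x * y = x \ y`,
`A z = 0 * z` and `B z = z * 0 = z + A z`. The identity says `A² = B²`. Let `Z = A² = B²` and
`c = A⁻¹ B`; then `Z` commutes with everything, `A c A⁻¹ = c⁻¹` and `p = A B p + B A p`, that is
`Z⁻¹ p = c p + c⁻¹ p`. As `1 + 1 = 0`, `Z ^ (-2 ^ j) p = c ^ (2 ^ j) p + c ^ (- 2 ^ j) p`. Let `M` be
the odd part of the group order. As the number of nonzero elements is odd, there is `z ≠ 0` with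
`c ^ M z = z` and `A ^ M z = z`. For `2 ^ (j + 1) ≡ 1 mod M` put `U = Z ^ (- 2 ^ j)`,
`g = c ^ (2 ^ j)`. Then `A z = U⁻¹ z` gives `U z = z + c⁻¹ z`, and
`U (g⁻¹ z) = z + g⁻² z = z + c⁻¹ z`. Hence `g z = z` and `U z = g z + g⁻¹ z = 0`, a contradiction.
-/

set_option autoImplicit false

namespace Pool.Agent.Results.MP_425159_co.DevelopedOverAbelianGroup

open Pool.Agent.H680Q

/-- Let `G` be a finite abelian group with a quasigroup operation which satisfies `((xy)x)y = x` and
is invariant under the translations of `G`. If it is also invariant under `x ↦ -x`, or if `G` has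
at most one element of order two, then `|G| ≡ 1 mod 4`. -/
theorem result (G : Type) [AddCommGroup G] [Fintype G] (mul : G → G → G)
    (hleft : ∀ a b : G, ∃! x : G, mul a x = b)
    (hright : ∀ a b : G, ∃! x : G, mul x a = b)
    (hE : ∀ x y : G, mul (mul (mul x y) x) y = x)
    (htr : ∀ g x y : G, mul (x + g) (y + g) = mul x y + g)
    (h : (∀ x y : G, mul (-x) (-y) = -mul x y) ∨
      (∀ u v : G, u ≠ 0 → v ≠ 0 → u + u = 0 → v + v = 0 → u = v)) :
    Fintype.card G % 4 = 1 := by
  obtain ⟨st, h1, h2, h3, h4, h5, h6⟩ := exists_star mul hleft hright hE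
  have hodd : Fintype.card G % 2 = 1 := by
    refine dev_odd st h3 h4 h5 h6 ?_ ?_
    · intro g x y
      have e := htr g x (st x y)
      rw [h1] at e
      rw [← e, h2]
    · rcases h with h | h
      · left
        intro x y
        have e := h x (st x y)
        rw [h1] at e
        rw [← e, h2]
      · exact Or.inr h
  rcases Pool.Agent.Results.MP_425159_co.OrderModFour.result G mul hleft hright hE with h7 | h7
  · omega
  · exact h7

end Pool.Agent.Results.MP_425159_co.DevelopedOverAbelianGroup
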