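import Mathlib
import Pool.Agent.H680Q.Star
import Pool.Graph.R_seed8.Results.MP_425159_co.OrderModFour

/-!
# One-rotational quasigroups with `((xy)x)y = x`

Let `G` be a finite abelian group and let `S = G ∪ {∞}` be a finite quasigroup with `((xy)x)y = x`
for which the translations of `G` (with `∞ + g = ∞`) are automorphisms. Then `|S| ≡ 1 mod 4`.

Put `x * y = x \ y`. The identity gives `(u * v) * u = v * (u * v)`. Let `0 * h = ∞`, `0 * ∞ = u`
and `∞ * 0 = v`. From `(0 * h) * 0 = h * (0 * h)` we get `v = h + u`. If `|G|` is odd, then the sum
of all elements of `G` is `0`. The sums over the row and the column of `0` give `v + h = u`, so that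
`2 h = 0`, `h = 0` and `0 * 0 = ∞`, a contradiction to `0 * 0 = 0`. So `|G|` is even and `|S|` is
odd, and `|S|` is `0` or `1` modulo `4` by the sign of the swap (library).
-/

set_option autoImplicit false

namespace Pool.Agent.Results.MP_425159_co.OneRotationalAbelian

open Pool.Agent.H680Q

/-- Let `G` be a finite abelian group and `S = G ∪ {∞}` (written `Option G`) a quasigroup which
satisfies `((xy)x)y = x`, such that all translations of `G`, which fix `∞ = none`, are
automorphisms. Then `|S| ≡ 1 mod 4`. -/
theorem result (G : Type) [AddCommGroup G] [Fintype G] (mul : Option G → Option G → Option G)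
    (hleft : ∀ a b : Option G, ∃! x : Option G, mul a x = b)
    (hright : ∀ a b : Option G, ∃! x : Option G, mul x a = b)
    (hE : ∀ x y : Option G, mul (mul (mul x y) x) y = x)
    (htr : ∀ (g : G) (x y : Option G),
      mul (x.map (· + g)) (y.map (· + g)) = (mul x y).map (· + g)) :
    Fintype.card (Option G) % 4 = 1 := by
  obtain ⟨st, h1, h2, h3, h4, h5, h6⟩ := exists_star mul hleft hright hE
  have hev : Fintype.card G % 2 = 0 := by
    refine rot_even st h3 h4 h5 h6 ?_
    intro g x y
    have e := htr g x (st x y)
    rw [h1] at e
    rw [← e, h2]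
  have hc : Fintype.card (Option G) = Fintype.card G + 1 := Fintype.card_option
  rcases Pool.Agent.Results.MP_425159_co.OrderModFour.result (Option G) mul hleft hright hE with
    h7 | h7
  · omega
  · exact h7

end Pool.Agent.Results.MP_425159_co.OneRotationalAbelian
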